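import Mathlib

/-!
Gamma function evaluations.
-/

set_option autoImplicit false

namespace Q292.Legs

/-- triplication at the points of `ℕ / 3` -/
lemma gam_trip (k : ℕ) :
    Real.Gamma (((k:ℝ) + 1) / 3) * Real.Gamma (((k:ℝ) + 2) / 3) * Real.Gamma (((k:ℝ) + 3) / 3) =
      2 * Real.pi / √3 / 3 ^ k * Real.Gamma (k + 1) := by
  induction k with
  | zero =>
    have h := Real.Gamma_mul_Gamma_one_sub (1 / 3)
    rw [show (1:ℝ) - 1 / 3 = 2 / 3 by norm_num, show Real.pi * (1 / 3) = Real.pi / 3 by ring,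
      Real.sin_pi_div_three] at h
    push_cast
    rw [show ((0:ℝ) + 1) / 3 = 1 / 3 by norm_num, show ((0:ℝ) + 2) / 3 = 2 / 3 by norm_num,
      show ((0:ℝ) + 3) / 3 = 1 by norm_num, h, zero_add, Real.Gamma_one]
    have : √3 ≠ 0 := by positivity
    field_simp
  | succ k ih =>
    have hk : (0:ℝ) ≤ k := Nat.cast_nonneg k
    have h1 : Real.Gamma (((k:ℝ) + 4) / 3) = ((k:ℝ) + 1) / 3 * Real.Gamma (((k:ℝ) + 1) / 3) := by
      rw [← Real.Gamma_add_one (by positivity)]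
      congr 1
      ring
    have h2 : Real.Gamma ((k:ℝ) + 1 + 1) = ((k:ℝ) + 1) * Real.Gamma ((k:ℝ) + 1) :=
      Real.Gamma_add_one (by positivity)
    push_cast
    rw [show (k:ℝ) + 1 + 1 = (k:ℝ) + 1 + 1 by ring, h2,
      show ((k:ℝ) + 1 + 2) / 3 = ((k:ℝ) + 3) / 3 by ring,
      show ((k:ℝ) + 1 + 3) / 3 = ((k:ℝ) + 4) / 3 by ring, h1, pow_succ,
      show ((k:ℝ) + 1 + 1) / 3 = ((k:ℝ) + 2) / 3 by ring]
    have e : 2 * Real.pi / √3 / (3 ^ k * 3) * (((k:ℝ) + 1) * Real.Gamma ((k:ℝ) + 1)) =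
        ((k:ℝ) + 1) / 3 * (2 * Real.pi / √3 / 3 ^ k * Real.Gamma ((k:ℝ) + 1)) := by
      have : √3 ≠ 0 := by positivity
      field_simp
    rw [e, ← ih]
    ring

/-- quadruplication at the points of `ℕ / 4` -/
lemma gam_quad (k : ℕ) :
    Real.Gamma (((k:ℝ) + 1) / 4) * Real.Gamma (((k:ℝ) + 2) / 4) * Real.Gamma (((k:ℝ) + 3) / 4) *
      Real.Gamma (((k:ℝ) + 4) / 4) =
      √2 * Real.pi * √Real.pi / 4 ^ k * Real.Gamma (k + 1) := by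
  induction k with
  | zero =>
    have h := Real.Gamma_mul_Gamma_one_sub (1 / 4)
    rw [show (1:ℝ) - 1 / 4 = 3 / 4 by norm_num, show Real.pi * (1 / 4) = Real.pi / 4 by ring,
      Real.sin_pi_div_four] at h
    push_cast
    rw [show ((0:ℝ) + 1) / 4 = 1 / 4 by norm_num, show ((0:ℝ) + 2) / 4 = 1 / 2 by norm_num,
      show ((0:ℝ) + 3) / 4 = 3 / 4 by norm_num,
      show ((0:ℝ) + 4) / 4 = 1 by norm_num, zero_add, Real.Gamma_one, Real.Gamma_one_half_eq]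
    have e : Real.Gamma (1 / 4) * √Real.pi * Real.Gamma (3 / 4) * 1 =
        (Real.Gamma (1 / 4) * Real.Gamma (3 / 4)) * √Real.pi := by ring
    rw [e, h]
    have h2 : √2 * √2 = (2:ℝ) := Real.mul_self_sqrt (by norm_num)
    have : √2 ≠ 0 := by positivity
    field_simp
    nlinarith [h2]
  | succ k ih =>
    have hk : (0:ℝ) ≤ k := Nat.cast_nonneg k
    have h1 : Real.Gamma (((k:ℝ) + 5) / 4) = ((k:ℝ) + 1) / 4 * Real.Gamma (((k:ℝ) + 1) / 4) := by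
      rw [← Real.Gamma_add_one (by positivity)]
      congr 1
      ring
    have h2 : Real.Gamma ((k:ℝ) + 1 + 1) = ((k:ℝ) + 1) * Real.Gamma ((k:ℝ) + 1) :=
      Real.Gamma_add_one (by positivity)
    push_cast
    rw [h2, show ((k:ℝ) + 1 + 2) / 4 = ((k:ℝ) + 3) / 4 by ring,
      show ((k:ℝ) + 1 + 3) / 4 = ((k:ℝ) + 4) / 4 by ring,
      show ((k:ℝ) + 1 + 4) / 4 = ((k:ℝ) + 5) / 4 by ring, h1, pow_succ,
      show ((k:ℝ) + 1 + 1) / 4 = ((k:ℝ) + 2) / 4 by ring]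
    have e : √2 * Real.pi * √Real.pi / (4 ^ k * 4) * (((k:ℝ) + 1) * Real.Gamma ((k:ℝ) + 1)) =
        ((k:ℝ) + 1) / 4 * (√2 * Real.pi * √Real.pi / 4 ^ k * Real.Gamma ((k:ℝ) + 1)) := by
      field_simp
    rw [e, ← ih]
    ring

lemma gam_3h : Real.Gamma (3 / 2) = √Real.pi / 2 := by
  rw [show (3:ℝ) / 2 = 1 / 2 + 1 by norm_num, Real.Gamma_add_one (by norm_num),
    Real.Gamma_one_half_eq]
  ring

lemma gam_5h : Real.Gamma (5 / 2) = 3 / 4 * √Real.pi := by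
  rw [show (5:ℝ) / 2 = 3 / 2 + 1 by norm_num, Real.Gamma_add_one (by norm_num), gam_3h]
  ring

lemma gam_7h : Real.Gamma (7 / 2) = 15 / 8 * √Real.pi := by
  rw [show (7:ℝ) / 2 = 5 / 2 + 1 by norm_num, Real.Gamma_add_one (by norm_num), gam_5h]
  ring

lemma gam_9h : Real.Gamma (9 / 2) = 105 / 16 * √Real.pi := by
  rw [show (9:ℝ) / 2 = 7 / 2 + 1 by norm_num, Real.Gamma_add_one (by norm_num), gam_7h]
  ring

lemma dup (x y z : ℝ) (h1 : y = x + 1 / 2) (h2 : z = 2 * x) :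
    Real.Gamma x * Real.Gamma y = Real.Gamma z * 2 ^ (1 - z) * √Real.pi := by
  rw [h1, h2]
  exact Real.Gamma_mul_Gamma_add_half x

/-- powers of two -/
lemma two_powers (m : ℕ) :
    (2:ℝ) ^ ((2 * (m:ℝ) + 1) / 6) * 2 ^ (1 - ((m:ℝ) + 10) / 3) * 2 ^ (1 - ((m:ℝ) + 12) / 3) *
      2 ^ (1 - (7:ℝ) / 2) * 2 ^ (1 - (9:ℝ) / 2) * 4 ^ (m + 7) =
    512 * 2 ^ ((5 * (m:ℝ) - 2) / 3) * 2 ^ (1 - (11:ℝ) / 3) * 2 ^ (1 - (13:ℝ) / 3) * √2 := by
  have h2 : (0:ℝ) < 2 := by norm_num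
  have e1 : (4:ℝ) ^ (m + 7) = 2 ^ (2 * ((m:ℝ) + 7)) := by
    rw [Real.rpow_mul h2.le, show ((m:ℝ) + 7) = ((m + 7 : ℕ) : ℝ) by push_cast; ring,
      Real.rpow_natCast]
    norm_num
  have e2 : (512:ℝ) = 2 ^ (9:ℝ) := by
    rw [show (9:ℝ) = ((9:ℕ):ℝ) by norm_num, Real.rpow_natCast]
    norm_num
  rw [e1, e2, Real.sqrt_eq_rpow]
  simp only [← Real.rpow_add h2]
  congr 1
  ring

/-- the algebra of the evaluation -/
lemma eval_alg {S w T F G2 G8 G9 G10 a1 a2 E1 E2 E3 E4 E5 E6 Q Th x : ℝ}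
    (hF : F ≠ 0) (hS0 : S ≠ 0) (hw0 : w ≠ 0) (hT0 : T ≠ 0) (hQ : Q ≠ 0) (hTh : Th ≠ 0)
    (hE5 : E5 ≠ 0) (hE6 : E6 ≠ 0) (hx : 0 ≤ x)
    (hG8 : G8 = (x + 5) / 3 * ((x + 2) / 3 * G2))
    (htr : G8 * G9 * G10 = 2 * S ^ 2 / T / (Th * 2187) * F)
    (h2 : a1 * E1 * E2 * E3 * E4 * (Q * 16384) = 512 * a2 * E5 * E6 * w) :
    36 / ((x + 2) * (x + 5) * (x + 9)) *
      (((G10 * E1 * S) * ((x + 9) / 3 * G9 * E2 * S) * (G8 * G8) * (15 / 8 * S * E3 * S) *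
        (105 / 16 * S * E4 * S)) /
      ((S / 2) * (3 / 4 * S) * (w * S ^ 2 * S / (Q * 16384) * F) *
        ((2 * S ^ 2 / T * (604800 / 59049)) * E5 * S * (E6 * S)))) * a1 =
    a2 / (Th * S) * G2 := by
  have q2 : x + 2 ≠ 0 := by positivity
  have q5 : x + 5 ≠ 0 := by positivity
  have q9 : x + 9 ≠ 0 := by positivity
  have e1 : ((G10 * E1 * S) * ((x + 9) / 3 * G9 * E2 * S) * (G8 * G8) * (15 / 8 * S * E3 * S) *
        (105 / 16 * S * E4 * S)) = (G8 * G9 * G10) * G8 * ((x + 9) / 3) * (E1 * E2 * E3 * E4) *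
          (1575 / 128) * S ^ 6 := by ring
  rw [e1, htr, hG8]
  have e2 : a1 * (E1 * E2 * E3 * E4) = 512 * a2 * E5 * E6 * w / (Q * 16384) := by
    rw [eq_div_iff (by positivity), ← h2]
    ring
  have e3 : 36 / ((x + 2) * (x + 5) * (x + 9)) *
      ((2 * S ^ 2 / T / (Th * 2187) * F) * ((x + 5) / 3 * ((x + 2) / 3 * G2)) * ((x + 9) / 3) *
        (E1 * E2 * E3 * E4) * (1575 / 128) * S ^ 6 /
      ((S / 2) * (3 / 4 * S) * (w * S ^ 2 * S / (Q * 16384) * F) *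
        ((2 * S ^ 2 / T * (604800 / 59049)) * E5 * S * (E6 * S)))) * a1 =
      36 / ((x + 2) * (x + 5) * (x + 9)) *
      ((2 * S ^ 2 / T / (Th * 2187) * F) * ((x + 5) / 3 * ((x + 2) / 3 * G2)) * ((x + 9) / 3) *
        (a1 * (E1 * E2 * E3 * E4)) * (1575 / 128) * S ^ 6 /
      ((S / 2) * (3 / 4 * S) * (w * S ^ 2 * S / (Q * 16384) * F) *
        ((2 * S ^ 2 / T * (604800 / 59049)) * E5 * S * (E6 * S)))) := by ring
  rw [e3, e2]
  field_simp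
  ring

end Q292.Legs
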