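import Pool.Agent.W808.KS.T_ASs
import Pool.Agent.Q292.Legs.Gam

/-!
Sharp asymptotics of the exact law of `m` legs at the tip of a slit.
-/

set_option autoImplicit false

namespace Q292.Legs

open Filter Topology
open Pool.Agent.W808.KS
open Pool.Agent.W808.KS.TASs (R R_pos R_succ rr rr_pos rr_A rr_B Psl_step Psl_zero Psl_one)

/-- rising product `a (a + 1) ⋯ (a + n - 1)` -/
noncomputable def P (a : ℝ) (n : ℕ) : ℝ := ∏ j ∈ Finset.range n, (a + j)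

lemma P_zero (a : ℝ) : P a 0 = 1 := by simp [P]

lemma P_succ (a : ℝ) (n : ℕ) : P a (n + 1) = P a n * (a + n) := by
  unfold P
  rw [Finset.prod_range_succ]

lemma P_pos {a : ℝ} (ha : 0 < a) (n : ℕ) : 0 < P a n :=
  Finset.prod_pos fun i _ => by positivity

lemma tendsto_shift (a : ℝ) : Tendsto (fun n : ℕ => (n : ℝ) / (a + n)) atTop (𝓝 1) := by
  have h1 : Tendsto (fun n : ℕ => (a + n) / (n : ℝ)) atTop (𝓝 1) := by
    have h : Tendsto (fun n : ℕ => a / (n : ℝ) + 1) atTop (𝓝 (0 + 1)) :=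
      (tendsto_const_div_atTop_nhds_zero_nat a).add tendsto_const_nhds
    rw [zero_add] at h
    refine h.congr' ?_
    filter_upwards [eventually_gt_atTop 0] with n hn
    have : (0:ℝ) < n := by exact_mod_cast hn
    field_simp
  have h2 := h1.inv₀ one_ne_zero
  rw [inv_one] at h2
  refine h2.congr fun n => ?_
  rw [inv_div]

lemma P_tendsto {a : ℝ} (ha : 0 < a) :
    Tendsto (fun n : ℕ => P a n / (n.factorial * (n : ℝ) ^ (a - 1))) atTop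
      (𝓝 (1 / Real.Gamma a)) := by
  have h1 := Real.GammaSeq_tendsto_Gamma a
  have h2 := (tendsto_shift a).div h1 (Real.Gamma_pos_of_pos ha).ne'
  refine h2.congr' ?_
  filter_upwards [eventually_gt_atTop 0] with n hn
  have hn0 : (0:ℝ) < n := by exact_mod_cast hn
  have hP : 0 < P a n := P_pos ha n
  have hf : (0:ℝ) < n.factorial := by positivity
  have e1 : Real.GammaSeq a n = (n : ℝ) ^ a * n.factorial / (P a n * (a + n)) := by
    unfold Real.GammaSeq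
    rw [← P_succ]
    rfl
  have e2 : (n : ℝ) ^ (a - 1) = (n : ℝ) ^ a / n := by
    rw [Real.rpow_sub hn0, Real.rpow_one]
  have h3 : (0:ℝ) < (n : ℝ) ^ a := Real.rpow_pos_of_pos hn0 _
  simp only [Pi.div_apply]
  rw [e1, e2]
  field_simp

/-- product over a list -/
noncomputable def PL (l : List ℝ) (n : ℕ) : ℝ := (l.map (fun a => P a n)).prod

noncomputable def gP (l : List ℝ) : ℝ := (l.map Real.Gamma).prod

lemma gP_pos : ∀ l : List ℝ, (∀ a ∈ l, 0 < a) → 0 < gP l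
  | [], _ => by simp [gP]
  | a :: l, h => by
    have h1 := gP_pos l (fun c hc => h c (List.mem_cons_of_mem _ hc))
    have h2 := Real.Gamma_pos_of_pos (h a List.mem_cons_self)
    unfold gP at h1 ⊢
    simp only [List.map_cons, List.prod_cons]
    positivity

lemma PL_pos : ∀ l : List ℝ, (∀ a ∈ l, 0 < a) → ∀ n, 0 < PL l n
  | [], _, n => by simp [PL]
  | a :: l, h, n => by
    have h1 := PL_pos l (fun c hc => h c (List.mem_cons_of_mem _ hc)) n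
    have h2 := P_pos (h a List.mem_cons_self) n
    unfold PL at h1 ⊢
    simp only [List.map_cons, List.prod_cons]
    positivity

lemma PL_tendsto : ∀ l : List ℝ, (∀ a ∈ l, 0 < a) →
    Tendsto (fun n : ℕ => PL l n / ((n.factorial : ℝ) ^ l.length *
      (n : ℝ) ^ (l.sum - l.length))) atTop (𝓝 (1 / gP l))
  | [], _ => by simp [PL, gP]
  | a :: l, h => by
    have h1 := PL_tendsto l (fun c hc => h c (List.mem_cons_of_mem _ hc))
    have h2 := P_tendsto (h a List.mem_cons_self)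
    have h3 := h2.mul h1
    have e : 1 / Real.Gamma a * (1 / gP l) = 1 / gP (a :: l) := by
      unfold gP
      simp only [List.map_cons, List.prod_cons]
      rw [one_div_mul_one_div]
    rw [e] at h3
    refine h3.congr' ?_
    filter_upwards [eventually_gt_atTop 0] with n hn
    have hn0 : (0:ℝ) < n := by exact_mod_cast hn
    have hf : (0:ℝ) < n.factorial := by positivity
    have e1 : (n : ℝ) ^ ((a :: l).sum - ((a :: l).length : ℝ)) =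
        (n : ℝ) ^ (a - 1) * (n : ℝ) ^ (l.sum - l.length) := by
      rw [← Real.rpow_add hn0]
      congr 1
      simp only [List.sum_cons, List.length_cons]
      push_cast
      ring
    have p1 : (0:ℝ) < (n : ℝ) ^ (a - 1) := Real.rpow_pos_of_pos hn0 _
    have p2 : (0:ℝ) < (n : ℝ) ^ (l.sum - l.length) := Real.rpow_pos_of_pos hn0 _
    rw [e1]
    unfold PL
    simp only [List.map_cons, List.prod_cons, List.length_cons, pow_succ]
    field_simp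

lemma quot_tendsto (A B : List ℝ) (hA : ∀ a ∈ A, 0 < a) (hB : ∀ b ∈ B, 0 < b)
    (hlen : A.length = B.length) (s : ℝ) (hs : B.sum - A.sum = s) :
    Tendsto (fun n : ℕ => PL A n / PL B n * (n : ℝ) ^ s) atTop (𝓝 (gP B / gP A)) := by
  have h1 := PL_tendsto A hA
  have h2 := PL_tendsto B hB
  have h3 := h1.div h2 (by have := gP_pos B hB; positivity)
  have e : 1 / gP A / (1 / gP B) = gP B / gP A := by
    have := gP_pos B hB
    have := gP_pos A hA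
    field_simp
  rw [e] at h3
  refine h3.congr' ?_
  filter_upwards [eventually_gt_atTop 0] with n hn
  have hn0 : (0:ℝ) < n := by exact_mod_cast hn
  have hf : (0:ℝ) < n.factorial := by positivity
  have hPB := PL_pos B hB n
  have e1 : (n : ℝ) ^ (B.sum - (B.length : ℝ)) = (n : ℝ) ^ (A.sum - (A.length : ℝ)) * (n : ℝ) ^ s := by
    rw [← Real.rpow_add hn0]
    congr 1
    rw [← hs, hlen]
    ring
  have p1 : (0:ℝ) < (n : ℝ) ^ (A.sum - (A.length : ℝ)) := Real.rpow_pos_of_pos hn0 _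
  have p2 : (0:ℝ) < (n : ℝ) ^ s := Real.rpow_pos_of_pos hn0 _
  simp only [Pi.div_apply]
  rw [e1, hlen]
  rw [hlen] at p1
  field_simp

/-- the lists of parameters -/
noncomputable def lA (m : ℕ) : List ℝ := [3 / 2, 5 / 2, ((m:ℝ) + 8) / 4, ((m:ℝ) + 9) / 4,
  ((m:ℝ) + 10) / 4, ((m:ℝ) + 11) / 4, 11 / 6, 13 / 6, 7 / 3, 8 / 3]

noncomputable def lB (m : ℕ) : List ℝ := [((m:ℝ) + 10) / 6, ((m:ℝ) + 13) / 6, ((m:ℝ) + 12) / 6,
  ((m:ℝ) + 15) / 6, ((m:ℝ) + 8) / 3, ((m:ℝ) + 8) / 3, 7 / 4, 9 / 4, 9 / 4, 11 / 4]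

lemma lA_pos (m : ℕ) : ∀ a ∈ lA m, 0 < a := by
  intro a ha
  simp only [lA, List.mem_cons, List.not_mem_nil, or_false] at ha
  rcases ha with rfl | rfl | rfl | rfl | rfl | rfl | rfl | rfl | rfl | rfl <;> positivity

lemma lB_pos (m : ℕ) : ∀ a ∈ lB m, 0 < a := by
  intro a ha
  simp only [lB, List.mem_cons, List.not_mem_nil, or_false] at ha
  rcases ha with rfl | rfl | rfl | rfl | rfl | rfl | rfl | rfl | rfl | rfl <;> positivity

lemma R_zero (m : ℕ) : R m 0 = 36 / (((m:ℝ) + 2) * (m + 5) * (m + 9)) := by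
  have hm : (0:ℝ) ≤ m := Nat.cast_nonneg m
  have e1 : ∀ p : ℝ, 1 ≤ p → CR p 1 = p := by
    intro p hp
    have h1 : 2 * p + 1 ≠ 0 := by linarith
    have h2 : 2 * p - 1 ≠ 0 := by linarith
    simp [CR, Finset.prod_range_succ]
    field_simp
    rw [div_eq_one_iff_eq (by
      have : 2 * p - 1 + 2 = 2 * p + 1 := by ring
      rw [this]
      exact h1)]
    ring
  have e2 : ∀ p : ℝ, 1 ≤ p → CR p 2 = p * (p + 1) * (2 * p + 7) / 6 := by
    intro p hp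
    have h1 : 2 * p + 1 ≠ 0 := by linarith
    have h2 : 2 * p - 1 ≠ 0 := by linarith
    have h3 : 2 * p + 3 ≠ 0 := by linarith
    have h5 : 2 * p + 5 ≠ 0 := by linarith
    have e := TASs.CR_succ p 1
    rw [show (2:ℕ) = 1 + 1 by rfl, e, e1 p hp]
    unfold rr
    simp only [Finset.prod_range_succ, Finset.prod_range_zero]
    norm_num [Nat.factorial]
    rw [show 2 * p - 1 + 2 + 2 = 2 * p + 3 by ring, show 2 * p - 1 + 2 + 4 = 2 * p + 5 by ring,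
      show 2 * p - 1 + 2 = 2 * p + 1 by ring]
    field_simp
    ring
  have e0 : ∀ p : ℝ, CR p 0 = 1 := by
    intro p
    simp [CR]
  unfold R
  rw [e0, e0, show (0:ℕ) + 1 = 1 by rfl, show (0:ℕ) + 2 = 2 by rfl, e1 _ (by linarith),
    e1 3 (by norm_num), e1 _ (by linarith), e2 _ (by linarith)]
  have h1 : (m:ℝ) + 2 ≠ 0 := by positivity
  have h2 : (m:ℝ) + 5 ≠ 0 := by positivity
  have h3 : (m:ℝ) + 9 ≠ 0 := by positivity
  have h4 : (m:ℝ) / 2 + 1 ≠ 0 := by positivity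
  have h5 : (m:ℝ) / 2 + 1 + 1 ≠ 0 := by positivity
  have h6 : 2 * ((m:ℝ) / 2 + 1) + 7 ≠ 0 := by positivity
  field_simp
  ring

lemma PL_nil (n : ℕ) : PL [] n = 1 := by simp [PL]

lemma PL_cons_succ (a : ℝ) (l : List ℝ) (n : ℕ) :
    PL (a :: l) n = P a n * PL l n := by
  simp [PL]

lemma R_ratio (m N : ℕ) : R m (N + 1) *
    ((((m:ℝ) + 10) / 6 + N) * (((m:ℝ) + 13) / 6 + N) * (((m:ℝ) + 12) / 6 + N) *
      (((m:ℝ) + 15) / 6 + N) * (((m:ℝ) + 8) / 3 + N) * (((m:ℝ) + 8) / 3 + N) * (7 / 4 + N) *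
      (9 / 4 + N) * (9 / 4 + N) * (11 / 4 + N)) =
    R m N * ((3 / 2 + N) * (5 / 2 + N) * (((m:ℝ) + 8) / 4 + N) * (((m:ℝ) + 9) / 4 + N) *
      (((m:ℝ) + 10) / 4 + N) * (((m:ℝ) + 11) / 4 + N) * (11 / 6 + N) * (13 / 6 + N) *
      (7 / 3 + N) * (8 / 3 + N)) := by
  have hm : (0:ℝ) ≤ m := Nat.cast_nonneg m
  have hN : (0:ℝ) ≤ N := Nat.cast_nonneg N
  have g1 : 0 < rr ((m : ℝ) / 2 + 1 + 1) (N + 1) := rr_pos (by linarith) _
  have g2 : 0 < rr (((m : ℝ) + 5) / 2 + 1) N := rr_pos (by linarith) _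
  have g3 : 0 < rr 3 (N + 1) := rr_pos (by norm_num) _
  have g4 : 0 < rr ((m : ℝ) / 2 + 1) (N + 2) := rr_pos (by linarith) _
  have g5 : 0 < rr (((m : ℝ) + 5) / 2) (N + 1) := rr_pos (by linarith) _
  have g6 : 0 < rr 3 N := rr_pos (by norm_num) _
  have hA := rr_A (p := (m : ℝ) / 2 + 1) (by linarith) (N + 1)
  have hB := rr_A (p := ((m : ℝ) + 5) / 2) (by linarith) N
  have hC := rr_B (p := 3) (by norm_num) N
  have hR := R_succ m N
  have hR0 := R_pos m N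
  have hR1 := R_pos m (N + 1)
  push_cast at hA
  rw [show N + 1 + 1 = N + 2 by ring] at hA
  generalize rr ((m : ℝ) / 2 + 1 + 1) (N + 1) = c1 at *
  generalize rr (((m : ℝ) + 5) / 2 + 1) N = c2 at *
  generalize rr 3 (N + 1) = c3 at *
  generalize rr ((m : ℝ) / 2 + 1) (N + 2) = c4 at *
  generalize rr (((m : ℝ) + 5) / 2) (N + 1) = c5 at *
  generalize rr 3 N = c6 at *
  generalize R m N = r0 at *
  generalize R m (N + 1) = r1 at *
  have q1 : 0 < (2 * ((m:ℝ) / 2 + 1) + 6 * ((N:ℝ) + 1) + 7) *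
      (2 * ((m:ℝ) / 2 + 1) + 6 * ((N:ℝ) + 1) + 5) * (2 * ((m:ℝ) / 2 + 1) + 3 * ((N:ℝ) + 1) + 3) := by
    positivity
  have q2 : 0 < (2 * (((m:ℝ) + 5) / 2) + 6 * (N:ℝ) + 7) *
      (2 * (((m:ℝ) + 5) / 2) + 6 * (N:ℝ) + 5) * (2 * (((m:ℝ) + 5) / 2) + 3 * (N:ℝ) + 3) := by
    positivity
  have q3 : 0 < (2 * (2 * (N:ℝ) + 3) * (2 * 3 + 4 * N + 1) * (2 * 3 + 4 * N + 3) ^ 2 *
      (2 * 3 + 4 * N + 5) * (2 * 3 + 2 * N)) := by positivity
  rw [← eq_div_iff q1.ne'] at hA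
  rw [← eq_div_iff q2.ne'] at hB
  rw [← eq_div_iff q3.ne'] at hC
  rw [hA, hB, hC] at hR
  have hR' : r1 * (c4 * c5 * c6) = r0 * (c4 * c5 * c6) *
    ((2 * (2 * ((N:ℝ) + 1) + 3) * (2 * ((m:ℝ) / 2 + 1) + 4 * (N + 1) + 5) *
      (2 * ((m:ℝ) / 2 + 1) + 4 * (N + 1) + 3)) /
      ((2 * ((m:ℝ) / 2 + 1) + 6 * ((N:ℝ) + 1) + 7) *
      (2 * ((m:ℝ) / 2 + 1) + 6 * ((N:ℝ) + 1) + 5) * (2 * ((m:ℝ) / 2 + 1) + 3 * ((N:ℝ) + 1) + 3)) *
    ((2 * (2 * (N:ℝ) + 3) * (2 * (((m:ℝ) + 5) / 2) + 4 * N + 5) *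
      (2 * (((m:ℝ) + 5) / 2) + 4 * N + 3)) /
      ((2 * (((m:ℝ) + 5) / 2) + 6 * (N:ℝ) + 7) *
      (2 * (((m:ℝ) + 5) / 2) + 6 * (N:ℝ) + 5) * (2 * (((m:ℝ) + 5) / 2) + 3 * (N:ℝ) + 3))) *
    (((2 * 3 + 3 * (N:ℝ) + 3) * (2 * 3 + 6 * N + 3) * (2 * 3 + 6 * N + 5) * (2 * 3 + 6 * N + 7) *
      (2 * 3 + 3 * N + 1) * (2 * 3 + 3 * N + 2)) /
      (2 * (2 * (N:ℝ) + 3) * (2 * 3 + 4 * N + 1) * (2 * 3 + 4 * N + 3) ^ 2 *
      (2 * 3 + 4 * N + 5) * (2 * 3 + 2 * N)))) := by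
    rw [hR]
    ring
  have hR'' := mul_right_cancel₀ (mul_pos (mul_pos g4 g5) g6).ne'
    (show r1 * (c4 * c5 * c6) = (r0 * ((2 * (2 * ((N:ℝ) + 1) + 3) * (2 * ((m:ℝ) / 2 + 1) + 4 * (N + 1) + 5) *
      (2 * ((m:ℝ) / 2 + 1) + 4 * (N + 1) + 3)) /
      ((2 * ((m:ℝ) / 2 + 1) + 6 * ((N:ℝ) + 1) + 7) *
      (2 * ((m:ℝ) / 2 + 1) + 6 * ((N:ℝ) + 1) + 5) * (2 * ((m:ℝ) / 2 + 1) + 3 * ((N:ℝ) + 1) + 3)) *
    ((2 * (2 * (N:ℝ) + 3) * (2 * (((m:ℝ) + 5) / 2) + 4 * N + 5) *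
      (2 * (((m:ℝ) + 5) / 2) + 4 * N + 3)) /
      ((2 * (((m:ℝ) + 5) / 2) + 6 * (N:ℝ) + 7) *
      (2 * (((m:ℝ) + 5) / 2) + 6 * (N:ℝ) + 5) * (2 * (((m:ℝ) + 5) / 2) + 3 * (N:ℝ) + 3))) *
    (((2 * 3 + 3 * (N:ℝ) + 3) * (2 * 3 + 6 * N + 3) * (2 * 3 + 6 * N + 5) * (2 * 3 + 6 * N + 7) *
      (2 * 3 + 3 * N + 1) * (2 * 3 + 3 * N + 2)) /
      (2 * (2 * (N:ℝ) + 3) * (2 * 3 + 4 * N + 1) * (2 * 3 + 4 * N + 3) ^ 2 *
      (2 * 3 + 4 * N + 5) * (2 * 3 + 2 * N))))) * (c4 * c5 * c6) by rw [hR']; ring)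
  rw [hR'']
  have z1 : (2 * ((m:ℝ) / 2 + 1) + 6 * ((N:ℝ) + 1) + 7) ≠ 0 := by positivity
  have z2 : (2 * ((m:ℝ) / 2 + 1) + 6 * ((N:ℝ) + 1) + 5) ≠ 0 := by positivity
  have z3 : (2 * ((m:ℝ) / 2 + 1) + 3 * ((N:ℝ) + 1) + 3) ≠ 0 := by positivity
  have z4 : (2 * (((m:ℝ) + 5) / 2) + 6 * (N:ℝ) + 7) ≠ 0 := by positivity
  have z5 : (2 * (((m:ℝ) + 5) / 2) + 6 * (N:ℝ) + 5) ≠ 0 := by positivity
  have z6 : (2 * (((m:ℝ) + 5) / 2) + 3 * (N:ℝ) + 3) ≠ 0 := by positivity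
  field_simp
  ring

lemma R_eq (m N : ℕ) : R m N = R m 0 * (PL (lA m) N / PL (lB m) N) := by
  induction N with
  | zero =>
    simp [PL, P_zero, lA, lB]
  | succ N ih =>
    have hB := PL_pos (lB m) (lB_pos m) N
    have hB1 := PL_pos (lB m) (lB_pos m) (N + 1)
    have hm : (0:ℝ) ≤ m := Nat.cast_nonneg m
    have hN : (0:ℝ) ≤ N := Nat.cast_nonneg N
    have h := R_ratio m N
    have eA : PL (lA m) (N + 1) = PL (lA m) N * ((3 / 2 + N) * (5 / 2 + N) * (((m:ℝ) + 8) / 4 + N) *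
      (((m:ℝ) + 9) / 4 + N) *
      (((m:ℝ) + 10) / 4 + N) * (((m:ℝ) + 11) / 4 + N) * (11 / 6 + N) * (13 / 6 + N) *
      (7 / 3 + N) * (8 / 3 + N)) := by
      unfold PL lA
      simp only [List.map_cons, List.map_nil, List.prod_cons, List.prod_nil, P_succ]
      ring
    have eB : PL (lB m) (N + 1) = PL (lB m) N * ((((m:ℝ) + 10) / 6 + N) * (((m:ℝ) + 13) / 6 + N) *
      (((m:ℝ) + 12) / 6 + N) *
      (((m:ℝ) + 15) / 6 + N) * (((m:ℝ) + 8) / 3 + N) * (((m:ℝ) + 8) / 3 + N) * (7 / 4 + N) *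
      (9 / 4 + N) * (9 / 4 + N) * (11 / 4 + N)) := by
      unfold PL lB
      simp only [List.map_cons, List.map_nil, List.prod_cons, List.prod_nil, P_succ]
      ring
    rw [mul_div_assoc', eq_div_iff hB.ne'] at ih
    rw [mul_div_assoc', eq_div_iff hB1.ne', eA, eB]
    linear_combination (PL (lB m) N) * h + ((3 / 2 + (N:ℝ)) * (5 / 2 + N) * (((m:ℝ) + 8) / 4 + N) *
      (((m:ℝ) + 9) / 4 + N) *
      (((m:ℝ) + 10) / 4 + N) * (((m:ℝ) + 11) / 4 + N) * (11 / 6 + N) * (13 / 6 + N) *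
      (7 / 3 + N) * (8 / 3 + N)) * ih

/-- the amplitude factors -/
noncomputable def amp (k : ℕ) : ℝ :=
  2 ^ ((5 * (k:ℝ) - 2) / 3) / (3 ^ k * √Real.pi) * Real.Gamma (((k:ℝ) + 2) / 3)

lemma amp_eval (m : ℕ) :
    R m 0 * (gP (lB m) / gP (lA m)) * 2 ^ ((2 * (m:ℝ) + 1) / 6) = amp m := by
  have hm : (0:ℝ) ≤ m := Nat.cast_nonneg m
  have d1 := dup (((m:ℝ) + 10) / 6) (((m:ℝ) + 13) / 6) (((m:ℝ) + 10) / 3) (by ring) (by ring)
  have d2 := dup (((m:ℝ) + 12) / 6) (((m:ℝ) + 15) / 6) (((m:ℝ) + 12) / 3) (by ring) (by ring)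
  have d3 := dup (7 / 4) (9 / 4) (7 / 2) (by norm_num) (by norm_num)
  have d4 := dup (9 / 4) (11 / 4) (9 / 2) (by norm_num) (by norm_num)
  have d5 := dup (11 / 6) (7 / 3) (11 / 3) (by norm_num) (by norm_num)
  have d6 := dup (13 / 6) (8 / 3) (13 / 3) (by norm_num) (by norm_num)
  have t1 := gam_trip (m + 7)
  have t2 := gam_trip 10
  have q1 := gam_quad (m + 7)
  have h2 := two_powers m
  push_cast at t1 t2 q1
  rw [show (m:ℝ) + 7 + 1 = m + 8 by ring, show (m:ℝ) + 7 + 2 = m + 9 by ring,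
    show (m:ℝ) + 7 + 3 = m + 10 by ring] at t1
  rw [show (m:ℝ) + 7 + 1 = m + 8 by ring, show (m:ℝ) + 7 + 2 = m + 9 by ring,
    show (m:ℝ) + 7 + 3 = m + 10 by ring, show (m:ℝ) + 7 + 4 = m + 11 by ring] at q1
  have g12 : Real.Gamma (((m:ℝ) + 12) / 3) = ((m:ℝ) + 9) / 3 * Real.Gamma (((m:ℝ) + 9) / 3) := by
    rw [← Real.Gamma_add_one (by positivity)]
    congr 1
    ring
  have g8 : Real.Gamma (((m:ℝ) + 8) / 3) =
      ((m:ℝ) + 5) / 3 * (((m:ℝ) + 2) / 3 * Real.Gamma (((m:ℝ) + 2) / 3)) := by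
    rw [← Real.Gamma_add_one (by positivity), show ((m:ℝ) + 2) / 3 + 1 = ((m:ℝ) + 5) / 3 by ring,
      ← Real.Gamma_add_one (by positivity)]
    congr 1
    ring
  have g11 : Real.Gamma (11 / 3) * Real.Gamma (13 / 3) =
      2 * Real.pi / √3 * (604800 / 59049) := by
    have e4 : Real.Gamma (((10:ℝ) + 2) / 3) = 6 := by
      rw [show ((10:ℝ) + 2) / 3 = ((3:ℕ):ℝ) + 1 by norm_num, Real.Gamma_nat_eq_factorial]
      norm_num [Nat.factorial]
    have e11 : Real.Gamma ((10:ℝ) + 1) = 3628800 := by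
      rw [show (10:ℝ) + 1 = ((10:ℕ):ℝ) + 1 by norm_num, Real.Gamma_nat_eq_factorial]
      norm_num [Nat.factorial]
    rw [e4, e11, show ((10:ℝ) + 1) / 3 = 11 / 3 by norm_num,
      show ((10:ℝ) + 3) / 3 = 13 / 3 by norm_num] at t2
    have e : Real.Gamma (11 / 3) * Real.Gamma (13 / 3) =
        (Real.Gamma (11 / 3) * 6 * Real.Gamma (13 / 3)) / 6 := by ring
    rw [e, t2]
    ring
  have hS : √Real.pi * √Real.pi = Real.pi := Real.mul_self_sqrt Real.pi_pos.le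
  have hS2 : Real.pi = √Real.pi ^ 2 := by rw [pow_two, hS]
  have hF : Real.Gamma ((m:ℝ) + 8) ≠ 0 := (Real.Gamma_pos_of_pos (by positivity)).ne'
  have eB : gP (lB m) = (Real.Gamma (((m:ℝ) + 10) / 6) * Real.Gamma (((m:ℝ) + 13) / 6)) *
      (Real.Gamma (((m:ℝ) + 12) / 6) * Real.Gamma (((m:ℝ) + 15) / 6)) *
      (Real.Gamma (((m:ℝ) + 8) / 3) * Real.Gamma (((m:ℝ) + 8) / 3)) *
      (Real.Gamma (7 / 4) * Real.Gamma (9 / 4)) * (Real.Gamma (9 / 4) * Real.Gamma (11 / 4)) := by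
    unfold gP lB
    simp only [List.map_cons, List.map_nil, List.prod_cons, List.prod_nil]
    ring
  have eA : gP (lA m) = Real.Gamma (3 / 2) * Real.Gamma (5 / 2) *
      (Real.Gamma (((m:ℝ) + 8) / 4) * Real.Gamma (((m:ℝ) + 9) / 4) *
        Real.Gamma (((m:ℝ) + 10) / 4) * Real.Gamma (((m:ℝ) + 11) / 4)) *
      ((Real.Gamma (11 / 6) * Real.Gamma (7 / 3)) * (Real.Gamma (13 / 6) * Real.Gamma (8 / 3))) := by
    unfold gP lA
    simp only [List.map_cons, List.map_nil, List.prod_cons, List.prod_nil]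
    ring
  rw [show m + 7 = m + 7 by rfl, pow_add, show (3:ℝ) ^ 7 = 2187 by norm_num] at t1
  rw [pow_add, show (4:ℝ) ^ 7 = 16384 by norm_num] at q1 h2
  rw [hS2] at t1
  rw [show √2 * Real.pi * √Real.pi = √2 * √Real.pi ^ 2 * √Real.pi by rw [← hS2]] at q1
  have key := eval_alg (S := √Real.pi) (w := √2) (T := √3) (F := Real.Gamma ((m:ℝ) + 8))
    (G2 := Real.Gamma (((m:ℝ) + 2) / 3)) (G8 := Real.Gamma (((m:ℝ) + 8) / 3))
    (G9 := Real.Gamma (((m:ℝ) + 9) / 3)) (G10 := Real.Gamma (((m:ℝ) + 10) / 3))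
    (a1 := 2 ^ ((2 * (m:ℝ) + 1) / 6)) (a2 := 2 ^ ((5 * (m:ℝ) - 2) / 3))
    (E1 := 2 ^ (1 - ((m:ℝ) + 10) / 3)) (E2 := 2 ^ (1 - ((m:ℝ) + 12) / 3))
    (E3 := 2 ^ (1 - (7:ℝ) / 2)) (E4 := 2 ^ (1 - (9:ℝ) / 2)) (E5 := 2 ^ (1 - (11:ℝ) / 3))
    (E6 := 2 ^ (1 - (13:ℝ) / 3)) (Q := 4 ^ m) (Th := 3 ^ m) (x := m) hF (by positivity)
    (by positivity) (by positivity) (by positivity) (by positivity) (by positivity)
    (by positivity) hm g8 t1 h2
  unfold amp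
  rw [← key, eA, eB, R_zero, d1, d2, d3, d4, d5, d6, q1, g12, gam_3h, gam_5h, gam_7h, gam_9h]
  have e6 : Real.Gamma (11 / 3) * 2 ^ (1 - (11:ℝ) / 3) * √Real.pi *
      (Real.Gamma (13 / 3) * 2 ^ (1 - (13:ℝ) / 3) * √Real.pi) =
      (2 * √Real.pi ^ 2 / √3 * (604800 / 59049)) * 2 ^ (1 - (11:ℝ) / 3) * √Real.pi *
        (2 ^ (1 - (13:ℝ) / 3) * √Real.pi) := by
    rw [← hS2, ← g11]
    ring
  rw [e6]

lemma circ_tendsto (c : ℝ) (s : ℝ) :
    Tendsto (fun N : ℕ => ((c + 2 * N) / N) ^ s) atTop (𝓝 (2 ^ s)) := by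
  have h : Tendsto (fun n : ℕ => c / (n : ℝ) + 2) atTop (𝓝 (0 + 2)) :=
    (tendsto_const_div_atTop_nhds_zero_nat c).add tendsto_const_nhds
  rw [zero_add] at h
  have h1 : Tendsto (fun N : ℕ => (c + 2 * N) / (N:ℝ)) atTop (𝓝 2) := by
    refine h.congr' ?_
    filter_upwards [eventually_gt_atTop 0] with n hn
    have : (0:ℝ) < n := by exact_mod_cast hn
    field_simp
  exact h1.rpow_const (Or.inl (by norm_num))

lemma R_tendsto (m : ℕ) :
    Tendsto (fun N : ℕ => ((m + 2 * (N + 2) : ℕ) : ℝ) ^ ((2 * (m:ℝ) + 1) / 6) * R m N) atTop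
      (𝓝 (amp m)) := by
  have h1 := quot_tendsto (lA m) (lB m) (lA_pos m) (lB_pos m) (by simp [lA, lB])
    ((2 * (m:ℝ) + 1) / 6) (by
      simp only [lA, lB, List.sum_cons, List.sum_nil]
      ring)
  have h2 := circ_tendsto ((m:ℝ) + 4) ((2 * (m:ℝ) + 1) / 6)
  have h3 := (h1.const_mul (R m 0)).mul h2
  rw [amp_eval] at h3
  refine h3.congr' ?_
  filter_upwards [eventually_gt_atTop 0] with n hn
  have hn0 : (0:ℝ) < n := by exact_mod_cast hn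
  have hm : (0:ℝ) ≤ m := Nat.cast_nonneg m
  rw [R_eq m n, Real.div_rpow (by positivity) hn0.le]
  have e : ((m + 2 * (n + 2) : ℕ) : ℝ) = (m:ℝ) + 4 + 2 * n := by push_cast; ring
  rw [e]
  have p1 : (0:ℝ) < (n:ℝ) ^ ((2 * (m:ℝ) + 1) / 6) := Real.rpow_pos_of_pos hn0 _
  field_simp

lemma main (m : ℕ) :
    Tendsto (fun N : ℕ => ((m + 2 * (N + 1) : ℕ) : ℝ) ^ ((m:ℝ) * (m - 1) / 12) * Psl m (N + 1))
      atTop (𝓝 (∏ i ∈ Finset.range (m / 2), amp (m % 2 + 2 * i))) := by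
  induction m using Nat.strong_induction_on with
  | _ m ih =>
  rcases Nat.lt_or_ge m 2 with h | h
  · have h0 : m / 2 = 0 := by omega
    rw [h0, Finset.prod_range_zero]
    refine tendsto_const_nhds.congr fun N => ?_
    have hP : Psl m (N + 1) = 1 := by
      interval_cases m
      · exact Psl_zero N
      · exact Psl_one N
    have he : (m : ℝ) * (m - 1) / 12 = 0 := by
      interval_cases m <;> norm_num
    rw [hP, he, Real.rpow_zero, one_mul]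
  · obtain ⟨k, rfl⟩ : ∃ k, m = k + 2 := ⟨m - 2, by omega⟩
    have h1 := (ih k (by omega)).comp (tendsto_add_atTop_nat 1)
    have h2 := h1.mul (R_tendsto k)
    have e1 : (k + 2) / 2 = k / 2 + 1 := by omega
    have e2 : (k + 2) % 2 = k % 2 := by omega
    have e3 : k % 2 + 2 * (k / 2) = k := by omega
    rw [e1, e2, Finset.prod_range_succ, e3]
    refine h2.congr fun N => ?_
    simp only [Function.comp]
    have e4 : k + 2 + 2 * (N + 1) = k + 2 * (N + 2) := by ring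
    have e5 : N + 1 + 1 = N + 2 := by ring
    rw [Psl_step, e4, e5]
    have hp : (0:ℝ) < ((k + 2 * (N + 2) : ℕ) : ℝ) := by
      exact_mod_cast (show 0 < k + 2 * (N + 2) by omega)
    have e6 : ((k + 2 * (N + 2) : ℕ) : ℝ) ^ (((k + 2 : ℕ) : ℝ) * (((k + 2 : ℕ) : ℝ) - 1) / 12) =
        ((k + 2 * (N + 2) : ℕ) : ℝ) ^ ((k:ℝ) * (k - 1) / 12) *
          ((k + 2 * (N + 2) : ℕ) : ℝ) ^ ((2 * (k:ℝ) + 1) / 6) := by
      rw [← Real.rpow_add hp]
      congr 1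
      push_cast
      ring
    rw [e6]
    ring

end Q292.Legs
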