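import Pool.Agent.W808.HB.T_AS
import Pool.Agent.Q292.Legs.Amp

/-!
Sharp asymptotics of the exact law of `m` legs at the boundary of the half-infinite cylinder.
-/

set_option autoImplicit false

namespace Q292.Legs.Bd

open Filter Topology
open Pool.Agent.W808.HB
open Pool.Agent.W808.HB.AS (R R_pos R_ratio Pn_step Cn_pos)
open Q292.Legs (P P_zero P_succ PL PL_pos gP quot_tendsto circ_tendsto)

/-- the amplitude factors -/
noncomputable def amp (k : ℕ) : ℝ :=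
  2 / 3 * Real.Gamma ((k:ℝ) + 3 / 2) / Real.Gamma ((2 * (k:ℝ) + 7) / 6)

noncomputable def lA (m : ℕ) : List ℝ := [(2 * (m:ℝ) + 4) / 3, 3 / 2]

noncomputable def lB (m : ℕ) : List ℝ := [((m:ℝ) + 5) / 3, (m:ℝ) + 3 / 2]

lemma lA_pos (m : ℕ) : ∀ a ∈ lA m, 0 < a := by
  intro a ha
  simp only [lA, List.mem_cons, List.not_mem_nil, or_false] at ha
  rcases ha with rfl | rfl <;> positivity

lemma lB_pos (m : ℕ) : ∀ a ∈ lB m, 0 < a := by
  intro a ha
  simp only [lB, List.mem_cons, List.not_mem_nil, or_false] at ha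
  rcases ha with rfl | rfl <;> positivity

lemma R_zero (m : ℕ) : R m 0 = 1 / ((m:ℝ) + 2) := by
  have hm : (0:ℝ) ≤ m := Nat.cast_nonneg m
  unfold R Cn
  simp only [Finset.prod_range_zero, zero_add, Finset.prod_range_one, mul_zero, add_zero,
    Nat.factorial_zero, Nat.cast_one, mul_one, Nat.factorial_one]
  rw [Nat.factorial_succ (m + 1)]
  push_cast
  have f1 : (0:ℝ) < m.factorial := by positivity
  have f2 : (0:ℝ) < (2 * m).factorial := by positivity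
  have f3 : (0:ℝ) < (m + 1).factorial := by positivity
  field_simp
  ring

lemma R_eq (m N : ℕ) : R m N = R m 0 * (PL (lA m) N / PL (lB m) N) := by
  induction N with
  | zero =>
    simp [PL, P_zero, lA, lB]
  | succ N ih =>
    have hB := PL_pos (lB m) (lB_pos m) N
    have hB1 := PL_pos (lB m) (lB_pos m) (N + 1)
    have h := Pool.Agent.W808.HB.AS.R_ratio m N
    have eA : PL (lA m) (N + 1) = PL (lA m) N * (((2 * (m:ℝ) + 4) / 3 + N) * (3 / 2 + N)) := by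
      unfold PL lA
      simp only [List.map_cons, List.map_nil, List.prod_cons, List.prod_nil, P_succ]
      ring
    have eB : PL (lB m) (N + 1) = PL (lB m) N * ((((m:ℝ) + 5) / 3 + N) * ((m:ℝ) + 3 / 2 + N)) := by
      unfold PL lB
      simp only [List.map_cons, List.map_nil, List.prod_cons, List.prod_nil, P_succ]
      ring
    rw [mul_div_assoc', eq_div_iff hB.ne'] at ih
    rw [mul_div_assoc', eq_div_iff hB1.ne', eA, eB]
    linear_combination (PL (lB m) N / 6) * h +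
      (((2 * (m:ℝ) + 4) / 3 + N) * (3 / 2 + N)) * ih

lemma amp_eval (m : ℕ) :
    R m 0 * (gP (lB m) / gP (lA m)) * 2 ^ ((2 * (m:ℝ) + 1) / 3) = amp m := by
  have hm : (0:ℝ) ≤ m := Nat.cast_nonneg m
  have d1 := dup (((m:ℝ) + 2) / 3) ((2 * (m:ℝ) + 7) / 6) ((2 * (m:ℝ) + 4) / 3) (by ring) (by ring)
  have g5 : Real.Gamma (((m:ℝ) + 5) / 3) = ((m:ℝ) + 2) / 3 * Real.Gamma (((m:ℝ) + 2) / 3) := by
    rw [← Real.Gamma_add_one (by positivity)]
    congr 1
    ring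
  have eB : gP (lB m) = Real.Gamma (((m:ℝ) + 5) / 3) * Real.Gamma ((m:ℝ) + 3 / 2) := by
    unfold gP lB
    simp only [List.map_cons, List.map_nil, List.prod_cons, List.prod_nil]
    ring
  have eA : gP (lA m) = Real.Gamma ((2 * (m:ℝ) + 4) / 3) * Real.Gamma (3 / 2) := by
    unfold gP lA
    simp only [List.map_cons, List.map_nil, List.prod_cons, List.prod_nil]
    ring
  have e2 : (2:ℝ) ^ (1 - (2 * (m:ℝ) + 4) / 3) * 2 ^ ((2 * (m:ℝ) + 1) / 3) = 1 := by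
    rw [← Real.rpow_add (by norm_num), show 1 - (2 * (m:ℝ) + 4) / 3 + (2 * (m:ℝ) + 1) / 3 = 0 by ring,
      Real.rpow_zero]
  have p1 : 0 < Real.Gamma ((2 * (m:ℝ) + 7) / 6) := Real.Gamma_pos_of_pos (by positivity)
  have p2 : 0 < Real.Gamma ((2 * (m:ℝ) + 4) / 3) := Real.Gamma_pos_of_pos (by positivity)
  have p3 : 0 < √Real.pi := by positivity
  have p4 : (0:ℝ) < m + 2 := by positivity
  unfold amp
  rw [eA, eB, R_zero, g5, gam_3h]
  have e3 : Real.Gamma (((m:ℝ) + 2) / 3) * 2 ^ ((2 * (m:ℝ) + 1) / 3) =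
      Real.Gamma ((2 * (m:ℝ) + 4) / 3) * √Real.pi / Real.Gamma ((2 * (m:ℝ) + 7) / 6) := by
    rw [eq_div_iff p1.ne']
    calc Real.Gamma (((m:ℝ) + 2) / 3) * 2 ^ ((2 * (m:ℝ) + 1) / 3) *
          Real.Gamma ((2 * (m:ℝ) + 7) / 6)
        = (Real.Gamma (((m:ℝ) + 2) / 3) * Real.Gamma ((2 * (m:ℝ) + 7) / 6)) *
          2 ^ ((2 * (m:ℝ) + 1) / 3) := by ring
      _ = Real.Gamma ((2 * (m:ℝ) + 4) / 3) * √Real.pi *
          (2 ^ (1 - (2 * (m:ℝ) + 4) / 3) * 2 ^ ((2 * (m:ℝ) + 1) / 3)) := by rw [d1]; ring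
      _ = _ := by rw [e2, mul_one]
  calc 1 / ((m:ℝ) + 2) * ((((m:ℝ) + 2) / 3 * Real.Gamma (((m:ℝ) + 2) / 3)) *
        Real.Gamma ((m:ℝ) + 3 / 2) / (Real.Gamma ((2 * (m:ℝ) + 4) / 3) * (√Real.pi / 2))) *
          2 ^ ((2 * (m:ℝ) + 1) / 3)
      = 1 / ((m:ℝ) + 2) * (((m:ℝ) + 2) / 3 *
        Real.Gamma ((m:ℝ) + 3 / 2) / (Real.Gamma ((2 * (m:ℝ) + 4) / 3) * (√Real.pi / 2))) *
        (Real.Gamma (((m:ℝ) + 2) / 3) * 2 ^ ((2 * (m:ℝ) + 1) / 3)) := by ring
    _ = _ := by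
      rw [e3]
      field_simp

lemma R_tendsto (m : ℕ) :
    Tendsto (fun N : ℕ => ((m + 2 * (N + 1) : ℕ) : ℝ) ^ ((2 * (m:ℝ) + 1) / 3) * R m N) atTop
      (𝓝 (amp m)) := by
  have h1 := quot_tendsto (lA m) (lB m) (lA_pos m) (lB_pos m) (by simp [lA, lB])
    ((2 * (m:ℝ) + 1) / 3) (by
      simp only [lA, lB, List.sum_cons, List.sum_nil]
      ring)
  have h2 := circ_tendsto ((m:ℝ) + 2) ((2 * (m:ℝ) + 1) / 3)
  have h3 := (h1.const_mul (R m 0)).mul h2
  rw [amp_eval] at h3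
  refine h3.congr' ?_
  filter_upwards [eventually_gt_atTop 0] with n hn
  have hn0 : (0:ℝ) < n := by exact_mod_cast hn
  have hm : (0:ℝ) ≤ m := Nat.cast_nonneg m
  rw [R_eq m n, Real.div_rpow (by positivity) hn0.le]
  have e : ((m + 2 * (n + 1) : ℕ) : ℝ) = (m:ℝ) + 2 + 2 * n := by push_cast; ring
  rw [e]
  have p1 : (0:ℝ) < (n:ℝ) ^ ((2 * (m:ℝ) + 1) / 3) := Real.rpow_pos_of_pos hn0 _
  field_simp

lemma main (m : ℕ) :
    Tendsto (fun N : ℕ => ((m + 2 * N : ℕ) : ℝ) ^ ((m:ℝ) * (m - 1) / 6) * Pn m N)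
      atTop (𝓝 (∏ i ∈ Finset.range (m / 2), amp (m % 2 + 2 * i))) := by
  induction m using Nat.strong_induction_on with
  | _ m ih =>
  rcases Nat.lt_or_ge m 2 with h | h
  · have h0 : m / 2 = 0 := by omega
    rw [h0, Finset.prod_range_zero]
    refine tendsto_const_nhds.congr fun N => ?_
    have hP : Pn m N = 1 := by
      unfold Pn
      have h2 : m % 2 = m := Nat.mod_eq_of_lt h
      rw [h2, h0, add_zero, div_self (Cn_pos m N).ne']
    have he : (m : ℝ) * (m - 1) / 6 = 0 := by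
      interval_cases m <;> norm_num
    rw [hP, he, Real.rpow_zero, one_mul]
  · obtain ⟨k, rfl⟩ : ∃ k, m = k + 2 := ⟨m - 2, by omega⟩
    have h1 := (ih k (by omega)).comp (tendsto_add_atTop_nat 1)
    have h2 := h1.mul (R_tendsto k)
    have e1 : (k + 2) / 2 = k / 2 + 1 := by omega
    have e2 : (k + 2) % 2 = k % 2 := by omega
    have e3 : k % 2 + 2 * (k / 2) = k := by omega
    rw [e1, e2, Finset.prod_range_succ, e3]
    refine h2.congr fun N => ?_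
    simp only [Function.comp]
    have e4 : k + 2 + 2 * N = k + 2 * (N + 1) := by ring
    rw [Pn_step, e4]
    have hp : (0:ℝ) < ((k + 2 * (N + 1) : ℕ) : ℝ) := by
      exact_mod_cast (show 0 < k + 2 * (N + 1) by omega)
    have e6 : ((k + 2 * (N + 1) : ℕ) : ℝ) ^ (((k + 2 : ℕ) : ℝ) * (((k + 2 : ℕ) : ℝ) - 1) / 6) =
        ((k + 2 * (N + 1) : ℕ) : ℝ) ^ ((k:ℝ) * (k - 1) / 6) *
          ((k + 2 * (N + 1) : ℕ) : ℝ) ^ ((2 * (k:ℝ) + 1) / 3) := by
      rw [← Real.rpow_add hp]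
      congr 1
      push_cast
      ring
    rw [e6]
    ring

end Q292.Legs.Bd
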