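import Pool.Agent.W808.KC.T_AS
import Pool.Agent.Q292.Legs.Amp

/-!
Sharp asymptotics of the exact law of `m` legs between the two corners of the half-infinite strip.
-/

set_option autoImplicit false

namespace Q292.Legs.Cr

open Filter Topology
open Pool.Agent.W808.KC
open Pool.Agent.W808.KC.TAS (R R_pos Pk_step Cn_pos)
open Q292.Legs (P P_zero P_succ PL PL_pos gP quot_tendsto circ_tendsto)

/-- the amplitude factors -/
noncomputable def amp (k : ℕ) : ℝ := ((2 * k).factorial : ℝ) / Real.Gamma (1 + 2 * (k:ℝ) / 3)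

noncomputable def lA (m : ℕ) : List ℝ := [(4 * (m:ℝ) + 6) / 3, 3 / 2]

noncomputable def lB (m : ℕ) : List ℝ := [(4 * (m:ℝ) + 9) / 6, 2 * (m:ℝ) + 2]

lemma lA_pos (m : ℕ) : ∀ a ∈ lA m, 0 < a := by
  intro a ha
  simp only [lA, List.mem_cons, List.not_mem_nil, or_false] at ha
  rcases ha with rfl | rfl <;> positivity

lemma lB_pos (m : ℕ) : ∀ a ∈ lB m, 0 < a := by
  intro a ha
  simp only [lB, List.mem_cons, List.not_mem_nil, or_false] at ha
  rcases ha with rfl | rfl <;> positivity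

lemma R_zero (m : ℕ) : R m 0 = 1 / (2 * (m:ℝ) + 1) := by
  have hm : (0:ℝ) ≤ m := Nat.cast_nonneg m
  unfold R Cn
  simp only [Finset.prod_range_zero, zero_add, Finset.prod_range_one, mul_zero, add_zero,
    Nat.factorial_zero, Nat.cast_one, mul_one, Nat.factorial_one, Finset.prod_range_succ]
  push_cast
  norm_num [Nat.factorial]
  have h1 : (2 * (2 * (m:ℝ)) + 3) ≠ 0 := by positivity
  have h2 : (2 * (2 * (m:ℝ)) + 1) ≠ 0 := by positivity
  have h3 : (2 * (2 * (m:ℝ)) + 1 + 2) ≠ 0 := by positivity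
  have h4 : (2 * (2 * (m:ℝ)) + 2) ≠ 0 := by positivity
  field_simp
  ring

lemma R_eq (m N : ℕ) : R m N = R m 0 * (PL (lA m) N / PL (lB m) N) := by
  induction N with
  | zero =>
    simp [PL, P_zero, lA, lB]
  | succ N ih =>
    have hB := PL_pos (lB m) (lB_pos m) N
    have hB1 := PL_pos (lB m) (lB_pos m) (N + 1)
    have h := Pool.Agent.W808.KC.TAS.R_ratio m N
    have eA : PL (lA m) (N + 1) = PL (lA m) N * (((4 * (m:ℝ) + 6) / 3 + N) * (3 / 2 + N)) := by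
      unfold PL lA
      simp only [List.map_cons, List.map_nil, List.prod_cons, List.prod_nil, P_succ]
      ring
    have eB : PL (lB m) (N + 1) = PL (lB m) N * (((4 * (m:ℝ) + 9) / 6 + N) * (2 * (m:ℝ) + 2 + N)) := by
      unfold PL lB
      simp only [List.map_cons, List.map_nil, List.prod_cons, List.prod_nil, P_succ]
      ring
    rw [mul_div_assoc', eq_div_iff hB.ne'] at ih
    rw [mul_div_assoc', eq_div_iff hB1.ne', eA, eB]
    push_cast at h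
    linear_combination (PL (lB m) N / 6) * h +
      (((4 * (m:ℝ) + 6) / 3 + N) * (3 / 2 + N)) * ih

lemma amp_eval (m : ℕ) :
    R m 0 * (gP (lB m) / gP (lA m)) * 2 ^ (4 * (m:ℝ) / 3) = amp m := by
  have hm : (0:ℝ) ≤ m := Nat.cast_nonneg m
  have d1 := dup ((2 * (m:ℝ) + 3) / 3) ((4 * (m:ℝ) + 9) / 6) ((4 * (m:ℝ) + 6) / 3) (by ring) (by ring)
  have eB : gP (lB m) = Real.Gamma ((4 * (m:ℝ) + 9) / 6) * Real.Gamma (2 * (m:ℝ) + 2) := by
    unfold gP lB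
    simp only [List.map_cons, List.map_nil, List.prod_cons, List.prod_nil]
    ring
  have eA : gP (lA m) = Real.Gamma ((4 * (m:ℝ) + 6) / 3) * Real.Gamma (3 / 2) := by
    unfold gP lA
    simp only [List.map_cons, List.map_nil, List.prod_cons, List.prod_nil]
    ring
  have e2 : (2:ℝ) ^ (1 - (4 * (m:ℝ) + 6) / 3) * 2 ^ (4 * (m:ℝ) / 3) = 1 / 2 := by
    rw [← Real.rpow_add (by norm_num), show 1 - (4 * (m:ℝ) + 6) / 3 + 4 * (m:ℝ) / 3 = -1 by ring,
      Real.rpow_neg_one]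
    norm_num
  have p1 : 0 < Real.Gamma ((2 * (m:ℝ) + 3) / 3) := Real.Gamma_pos_of_pos (by positivity)
  have p2 : 0 < Real.Gamma ((4 * (m:ℝ) + 6) / 3) := Real.Gamma_pos_of_pos (by positivity)
  have p3 : 0 < √Real.pi := by positivity
  have p4 : (0:ℝ) < 2 * m + 1 := by positivity
  have g2 : Real.Gamma (2 * (m:ℝ) + 2) = (2 * (m:ℝ) + 1) * ((2 * m).factorial : ℝ) := by
    rw [show 2 * (m:ℝ) + 2 = ((2 * m + 1 : ℕ) : ℝ) + 1 by push_cast; ring,
      Real.Gamma_nat_eq_factorial, Nat.factorial_succ]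
    push_cast
    ring
  unfold amp
  rw [eA, eB, R_zero, g2, gam_3h, show 1 + 2 * (m:ℝ) / 3 = (2 * (m:ℝ) + 3) / 3 by ring]
  have e3 : Real.Gamma ((4 * (m:ℝ) + 9) / 6) * 2 ^ (4 * (m:ℝ) / 3) =
      Real.Gamma ((4 * (m:ℝ) + 6) / 3) * √Real.pi / (2 * Real.Gamma ((2 * (m:ℝ) + 3) / 3)) := by
    rw [eq_div_iff (by positivity)]
    calc Real.Gamma ((4 * (m:ℝ) + 9) / 6) * 2 ^ (4 * (m:ℝ) / 3) *
          (2 * Real.Gamma ((2 * (m:ℝ) + 3) / 3))
        = 2 * (Real.Gamma ((2 * (m:ℝ) + 3) / 3) * Real.Gamma ((4 * (m:ℝ) + 9) / 6)) *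
          2 ^ (4 * (m:ℝ) / 3) := by ring
      _ = 2 * (Real.Gamma ((4 * (m:ℝ) + 6) / 3) * √Real.pi) *
          (2 ^ (1 - (4 * (m:ℝ) + 6) / 3) * 2 ^ (4 * (m:ℝ) / 3)) := by rw [d1]; ring
      _ = _ := by rw [e2]; ring
  calc 1 / (2 * (m:ℝ) + 1) * (Real.Gamma ((4 * (m:ℝ) + 9) / 6) *
        ((2 * (m:ℝ) + 1) * ((2 * m).factorial : ℝ)) /
          (Real.Gamma ((4 * (m:ℝ) + 6) / 3) * (√Real.pi / 2))) * 2 ^ (4 * (m:ℝ) / 3)
      = 1 / (2 * (m:ℝ) + 1) * (((2 * (m:ℝ) + 1) * ((2 * m).factorial : ℝ)) /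
          (Real.Gamma ((4 * (m:ℝ) + 6) / 3) * (√Real.pi / 2))) *
        (Real.Gamma ((4 * (m:ℝ) + 9) / 6) * 2 ^ (4 * (m:ℝ) / 3)) := by ring
    _ = _ := by
      rw [e3]
      field_simp

lemma R_tendsto (m : ℕ) :
    Tendsto (fun N : ℕ => ((2 * (m + (N + 1)) : ℕ) : ℝ) ^ (4 * (m:ℝ) / 3) * R m N) atTop
      (𝓝 (amp m)) := by
  have h1 := quot_tendsto (lA m) (lB m) (lA_pos m) (lB_pos m) (by simp [lA, lB])
    (4 * (m:ℝ) / 3) (by
      simp only [lA, lB, List.sum_cons, List.sum_nil]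
      ring)
  have h2 := circ_tendsto (2 * (m:ℝ) + 2) (4 * (m:ℝ) / 3)
  have h3 := (h1.const_mul (R m 0)).mul h2
  rw [amp_eval] at h3
  refine h3.congr' ?_
  filter_upwards [eventually_gt_atTop 0] with n hn
  have hn0 : (0:ℝ) < n := by exact_mod_cast hn
  have hm : (0:ℝ) ≤ m := Nat.cast_nonneg m
  rw [R_eq m n, Real.div_rpow (by positivity) hn0.le]
  have e : ((2 * (m + (n + 1)) : ℕ) : ℝ) = 2 * (m:ℝ) + 2 + 2 * n := by push_cast; ring
  rw [e]
  have p1 : (0:ℝ) < (n:ℝ) ^ (4 * (m:ℝ) / 3) := Real.rpow_pos_of_pos hn0 _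
  field_simp

lemma Pk_one (M : ℕ) : Pk 1 M = 1 := by
  unfold Pk
  rw [show 2 * 1 = 2 by rfl, show 1 + M - 1 = M by omega]
  exact div_self (Cn_pos 2 M).ne'

lemma main (m : ℕ) :
    Tendsto (fun N : ℕ => ((2 * (m + 1 + N) : ℕ) : ℝ) ^ (2 * ((m:ℝ) + 1) * m / 3) * Pk (m + 1) N)
      atTop (𝓝 (∏ k ∈ Finset.range m, amp (k + 1))) := by
  induction m with
  | zero =>
    rw [Finset.prod_range_zero]
    refine tendsto_const_nhds.congr fun N => ?_
    rw [show 0 + 1 = 1 by rfl, Pk_one]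
    simp
  | succ k ih =>
    have h1 := ih.comp (tendsto_add_atTop_nat 1)
    have h2 := h1.mul (R_tendsto (k + 1))
    rw [Finset.prod_range_succ]
    refine h2.congr fun N => ?_
    simp only [Function.comp]
    rw [Pk_step (k + 1) N (by omega)]
    have e4 : 2 * (k + 1 + 1 + N) = 2 * (k + 1 + (N + 1)) := by ring
    rw [e4]
    have hp : (0:ℝ) < ((2 * (k + 1 + (N + 1)) : ℕ) : ℝ) := by
      exact_mod_cast (show 0 < 2 * (k + 1 + (N + 1)) by omega)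
    have e6 : ((2 * (k + 1 + (N + 1)) : ℕ) : ℝ) ^ (2 * (((k + 1 : ℕ) : ℝ) + 1) * ((k + 1 : ℕ) : ℝ) / 3) =
        ((2 * (k + 1 + (N + 1)) : ℕ) : ℝ) ^ (2 * ((k:ℝ) + 1) * k / 3) *
          ((2 * (k + 1 + (N + 1)) : ℕ) : ℝ) ^ (4 * ((k + 1 : ℕ):ℝ) / 3) := by
      rw [← Real.rpow_add hp]
      congr 1
      push_cast
      ring
    rw [e6]
    ring

end Q292.Legs.Cr
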